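import Pool.Agent.Q201.FT.Count

/-!
# The state complexity of the shifts of the Fibonacci-Thue-Morse sequence is not linear

The definitions are in `Pool/Agent/Q201/FT/Defs.lean` (`Valid`, `val`, `DFAO`, `DFAO.run`,
`DFAO.Generates`, `S`) and `Pool/Agent/Q201/FT/Zset.lean` (`ftm`).

Along the Fibonacci numbers `c = F_k` the least number `S(c)` of states is at most
`8 φ^16 c^s` with `s = log(φ^13 - 1) / log(φ^13) < 1`; so `liminf S(c)/c = 0` and
`S(c) = Θ(c)` is false.
-/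

set_option autoImplicit false

namespace Pool.Agent.Results.MP_0deb22_lc.FibonacciShifts

open Filter Asymptotics Pool.Agent.Q201.FT

/-- the exponent -/
noncomputable def expo : ℝ :=
  Real.log (Real.goldenRatio ^ 13 - 1) / Real.log (Real.goldenRatio ^ 13)

theorem golden_ge : (8 : ℝ) / 5 ≤ Real.goldenRatio := by
  unfold Real.goldenRatio
  have : (11 : ℝ) / 5 ≤ Real.sqrt 5 := by
    apply Real.le_sqrt_of_sq_le
    norm_num
  linarith

theorem pow_gt_two : (2 : ℝ) < Real.goldenRatio ^ 13 := by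
  have h1 : ((8 : ℝ) / 5) ^ 13 ≤ Real.goldenRatio ^ 13 :=
    pow_le_pow_left₀ (by norm_num) golden_ge 13
  have h2 : (2 : ℝ) < ((8 : ℝ) / 5) ^ 13 := by norm_num
  linarith

theorem log_pos13 : 0 < Real.log (Real.goldenRatio ^ 13) :=
  Real.log_pos (by have := pow_gt_two; linarith)

theorem expo_pos : 0 < expo := by
  unfold expo
  exact div_pos (Real.log_pos (by have := pow_gt_two; linarith)) log_pos13

theorem expo_lt_one : expo < 1 := by
  unfold expo
  rw [div_lt_one log_pos13]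
  exact Real.log_lt_log (by have := pow_gt_two; linarith) (by linarith)

theorem rpow_expo : (Real.goldenRatio ^ 13) ^ expo = Real.goldenRatio ^ 13 - 1 := by
  have h0 : (0 : ℝ) < Real.goldenRatio ^ 13 := by have := pow_gt_two; linarith
  have h1 : (0 : ℝ) < Real.goldenRatio ^ 13 - 1 := by have := pow_gt_two; linarith
  rw [Real.rpow_def_of_pos h0]
  unfold expo
  rw [mul_div_cancel₀ _ log_pos13.ne', Real.exp_log h1]

/-- `φ^k ≤ φ^2 F_k` for `k ≥ 1` -/
theorem golden_pow_le (k : ℕ) : Real.goldenRatio ^ (k + 1) ≤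
    Real.goldenRatio ^ 2 * (Nat.fib (k + 1) : ℝ) ∧ Real.goldenRatio ^ (k + 2) ≤
    Real.goldenRatio ^ 2 * (Nat.fib (k + 2) : ℝ) := by
  induction k with
  | zero =>
    have h1 := Real.one_lt_goldenRatio
    constructor
    · norm_num
    · norm_num
  | succ k ih =>
    refine ⟨ih.2, ?_⟩
    have h2 : Real.goldenRatio ^ (k + 1 + 2) =
        Real.goldenRatio ^ (k + 1) + Real.goldenRatio ^ (k + 2) := by
      have : Real.goldenRatio ^ (k + 1 + 2) = Real.goldenRatio ^ (k + 1) * Real.goldenRatio ^ 2 := by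
        ring
      rw [this, Real.goldenRatio_sq]
      ring
    rw [h2, Nat.fib_add_two]
    push_cast
    have h3 : Nat.fib (k + 1 + 1) = Nat.fib (k + 2) := rfl
    rw [h3]
    linarith [ih.1, ih.2]

theorem S_fib_rpow {k : ℕ} (hk : 2 ≤ k) :
    (S (Nat.fib k) : ℝ) ≤ 8 * Real.goldenRatio ^ 16 * (Nat.fib k : ℝ) ^ expo := by
  have hφ := Real.one_lt_goldenRatio
  have hφ0 := Real.goldenRatio_pos
  have h1 := S_fib_le (k := k) (q := (k + 1) / 13) (r := (k + 1) % 13) hk (by omega)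
  set q := (k + 1) / 13 with hq
  set r := (k + 1) % 13 with hr
  have hr13 : r < 13 := Nat.mod_lt _ (by norm_num)
  have hqk : 13 * q ≤ k + 1 := by omega
  have e1 : Real.goldenRatio ^ (r + 1) ≤ Real.goldenRatio ^ 13 :=
    pow_le_pow_right₀ hφ.le (by omega)
  have e2 : (Real.goldenRatio ^ 13 - 1) ^ q = (Real.goldenRatio ^ (13 * q)) ^ expo := by
    rw [← rpow_expo, pow_mul, ← Real.rpow_natCast (_ ^ expo) q, ← Real.rpow_mul (by positivity),
      mul_comm expo, Real.rpow_mul (by positivity), Real.rpow_natCast]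
  have e3 : Real.goldenRatio ^ (13 * q) ≤ Real.goldenRatio ^ 3 * (Nat.fib k : ℝ) := by
    obtain ⟨j, rfl⟩ : ∃ j, k = j + 2 := ⟨k - 2, by omega⟩
    have h3 := (golden_pow_le j).2
    calc Real.goldenRatio ^ (13 * q) ≤ Real.goldenRatio ^ (j + 2 + 1) :=
          pow_le_pow_right₀ hφ.le hqk
      _ = Real.goldenRatio * Real.goldenRatio ^ (j + 2) := by ring
      _ ≤ Real.goldenRatio * (Real.goldenRatio ^ 2 * (Nat.fib (j + 2) : ℝ)) :=
          mul_le_mul_of_nonneg_left h3 hφ0.le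
      _ = Real.goldenRatio ^ 3 * (Nat.fib (j + 2) : ℝ) := by ring
  have e4 : (Real.goldenRatio ^ (13 * q)) ^ expo ≤
      Real.goldenRatio ^ 3 * (Nat.fib k : ℝ) ^ expo := by
    calc (Real.goldenRatio ^ (13 * q)) ^ expo ≤
          (Real.goldenRatio ^ 3 * (Nat.fib k : ℝ)) ^ expo :=
          Real.rpow_le_rpow (by positivity) e3 expo_pos.le
      _ = (Real.goldenRatio ^ 3) ^ expo * (Nat.fib k : ℝ) ^ expo :=
          Real.mul_rpow (by positivity) (by positivity)
      _ ≤ Real.goldenRatio ^ 3 * (Nat.fib k : ℝ) ^ expo := by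
          refine mul_le_mul_of_nonneg_right ?_ (by positivity)
          calc (Real.goldenRatio ^ 3) ^ expo ≤ (Real.goldenRatio ^ 3) ^ (1 : ℝ) :=
                Real.rpow_le_rpow_of_exponent_le (one_le_pow₀ hφ.le) expo_lt_one.le
            _ = Real.goldenRatio ^ 3 := Real.rpow_one _
  rw [e2] at h1
  have h0 : (0 : ℝ) ≤ (Real.goldenRatio ^ (13 * q)) ^ expo := by positivity
  calc (S (Nat.fib k) : ℝ) ≤
        8 * (Real.goldenRatio ^ (r + 1) * (Real.goldenRatio ^ (13 * q)) ^ expo) := h1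
    _ ≤ 8 * (Real.goldenRatio ^ 13 * (Real.goldenRatio ^ 3 * (Nat.fib k : ℝ) ^ expo)) := by
        refine mul_le_mul_of_nonneg_left ?_ (by norm_num)
        exact mul_le_mul e1 e4 h0 (by positivity)
    _ = 8 * Real.goldenRatio ^ 16 * (Nat.fib k : ℝ) ^ expo := by ring

theorem small (κ : ℝ) (hκ : 0 < κ) (c₀ : ℕ) : ∃ c : ℕ, c₀ ≤ c ∧ (S c : ℝ) < κ * c := by
  have h1 : Tendsto (fun x : ℝ => x ^ (1 - expo)) atTop atTop :=
    tendsto_rpow_atTop (by have := expo_lt_one; linarith)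
  obtain ⟨X, hX⟩ := (h1.eventually (eventually_gt_atTop
    (8 * Real.goldenRatio ^ 16 / κ))).exists_forall_of_atTop
  set k := c₀ + ⌈X⌉₊ + 5 with hk
  have hfk : k ≤ Nat.fib k := Nat.le_fib_self (by omega)
  refine ⟨Nat.fib k, by omega, ?_⟩
  have hX' : X ≤ (Nat.fib k : ℝ) := by
    have h2 := Nat.le_ceil X
    have h3 : (⌈X⌉₊ : ℝ) ≤ (Nat.fib k : ℝ) := by exact_mod_cast (by omega : ⌈X⌉₊ ≤ Nat.fib k)
    linarith
  have h4 := hX _ hX'
  have hpos : (0 : ℝ) < Nat.fib k := by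
    have : 0 < Nat.fib k := by omega
    exact_mod_cast this
  have h5 := S_fib_rpow (k := k) (by omega)
  have h6 : (0 : ℝ) < (Nat.fib k : ℝ) ^ expo := Real.rpow_pos_of_pos hpos _
  have h7 : (Nat.fib k : ℝ) ^ (1 - expo) * (Nat.fib k : ℝ) ^ expo = Nat.fib k := by
    rw [← Real.rpow_add hpos]
    simp
  rw [div_lt_iff₀ hκ] at h4
  calc (S (Nat.fib k) : ℝ) ≤ 8 * Real.goldenRatio ^ 16 * (Nat.fib k : ℝ) ^ expo := h5
    _ < (Nat.fib k : ℝ) ^ (1 - expo) * κ * (Nat.fib k : ℝ) ^ expo :=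
        mul_lt_mul_of_pos_right h4 h6
    _ = κ * ((Nat.fib k : ℝ) ^ (1 - expo) * (Nat.fib k : ℝ) ^ expo) := by ring
    _ = κ * Nat.fib k := by rw [h7]

/-- On a valid word the sequence is the parity of the number of ones. -/
theorem ftm_val (w : List Bool) (hw : Valid w) : ftm (val w) = w.count true % 2 := by
  rw [val_eq, ftm_fs (isZ_ones w hw)]
  congr 1
  clear hw
  induction w with
  | nil => rfl
  | cons e w ih =>
    rw [ones_cons]
    cases e with
    | false => simpa using ih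
    | true =>
      rw [if_pos rfl, Finset.card_insert_of_notMem (fun h => by
        have := mem_ones_lt w _ h; omega), ih]
      simp

/-- The statement `S(c) = Θ(c)` is false: `liminf S(c)/c = 0`, and along the Fibonacci numbers
`S(c)` is bounded by a constant times `c^s` with `s < 1`. -/
theorem result :
    -- `S c` is attained
    (∀ c : ℕ, ∃ M : DFAO, Nat.card M.Q = S c ∧ M.Generates fun i => ftm (i + c)) ∧
    -- `S(c) = Θ(c)` fails
    (¬ (fun c : ℕ => (S c : ℝ)) =Θ[atTop] fun c : ℕ => (c : ℝ)) ∧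
    -- `liminf S(c)/c = 0`
    (∀ κ : ℝ, 0 < κ → ∀ c₀ : ℕ, ∃ c : ℕ, c₀ ≤ c ∧ (S c : ℝ) < κ * c) ∧
    -- the bound along the Fibonacci numbers
    (expo < 1 ∧ ∀ k : ℕ, 2 ≤ k →
      (S (Nat.fib k) : ℝ) ≤ 8 * Real.goldenRatio ^ 16 * (Nat.fib k : ℝ) ^ expo) := by
  refine ⟨S_mem, ?_, small, expo_lt_one, fun k hk => S_fib_rpow hk⟩
  intro h
  obtain ⟨C, hC0, hC⟩ := h.2.exists_pos
  rw [isBigOWith_iff] at hC
  obtain ⟨N, hN⟩ := eventually_atTop.1 hC
  obtain ⟨c, hc, hc'⟩ := small (1 / C) (by positivity) N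
  have h1 := hN c hc
  rw [Real.norm_of_nonneg (by positivity), Real.norm_of_nonneg (by positivity)] at h1
  have h2 : C * (S c : ℝ) < C * (1 / C * c) := mul_lt_mul_of_pos_left hc' hC0
  have h3 : C * (1 / C * (c : ℝ)) = c := by field_simp
  linarith

end Pool.Agent.Results.MP_0deb22_lc.FibonacciShifts
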